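import Pool.Agent.Helper87.NSL.St
import Pool.Agent.Helper81.MT.Trn
import Pool.Agent.Helper81.CP2.Cut

/-! ST_HLF of helper87: the entropy of the level `b` of the point over the partition of a leaf from full coordinates. -/

set_option autoImplicit false

namespace Pool.Agent.Helper81.HLF

open Finset Filter Topology Matrix Pool.Agent.Helper69.RK Pool.Agent.Helper31.EC Pool.Agent.Helper31.EC.Sp
open Pool.Agent.Helper40.EL Pool.Agent.Helper84.MT Pool.Agent.Helper3.LF
open Pool.Agent.Helper89.LX Pool.Agent.Helper76.DIM Pool.Agent.Helper76.LG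
open Pool.Agent.Helper81.CP2 (h_dig_le)
open Pool.Agent.Helper52.SL (cellv_chg)

noncomputable section

variable {S : Sp} {M N v : ℕ} {E : ℕ → ℕ}

/-- the entropy of the point of a leaf over a partition with the same rate as `La` -/
theorem h_pt_le {Q : S.VV M} (f : Leaf S Q E) (V : ∀ k, Setoid (S.F k).Ω) (hle : ∀ k, f.La k ≤ V k)
    (hent : Tendsto (fun k => h (fc (f.La k)) (fc (V k)) / (S.F k).n) UF (𝓝 0)) (ε : ℝ) (hε : 0 < ε) :
    ∀ᶠ k in UF, h (fc (Setoid.ker (Q.cellv 1 k))) (fc (V k)) ≤ (f.e + ε) * (S.F k).n := by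
  have h1 : Tendsto (fun k => h (fc (Setoid.ker (Q.cellv 1 k))) (f.win 1 k) / (S.F k).n) UF (𝓝 0) :=
    f.dg_win zero_le_one le_rfl
  have h2 := h_dig_le f.Y f.La (ε / 4) (by linarith)
  filter_upwards [hent.eventually (gt_mem_nhds (show (0 : ℝ) < ε / 4 by linarith)),
    h1.eventually (gt_mem_nhds (show (0 : ℝ) < ε / 4 by linarith)), h2] with k a b c
  have hn := (S.F k).pos
  rw [div_lt_iff₀ hn] at a b
  rw [div_le_iff₀ hn] at c
  set x := fc (Setoid.ker (Q.cellv 1 k)) with hx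
  set y := fc (Setoid.ker (f.Y.cellv 1 k)) with hy
  set l := fc (f.La k) with hl
  set w := fc (V k) with hw
  have e0 : f.win 1 k = l ⊔ y := fc_inf (f.La k) (Setoid.ker (f.Y.cellv 1 k))
  have e1 : w ≤ l := fc_le fun ω ω' _ _ _ r => hle k r
  have e2 : h x w ≤ h (l ⊔ (y ⊔ x)) w := h_mono (le_sup_right.trans le_sup_right)
  have e3 : h (l ⊔ (y ⊔ x)) w = h l w + h (y ⊔ x) (l ⊔ w) := h_chain _ _ _
  have e4 : h (y ⊔ x) (l ⊔ w) = h y (l ⊔ w) + h x (y ⊔ (l ⊔ w)) := h_chain _ _ _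
  have e5 : l ⊔ w = l := sup_eq_left.2 e1
  rw [e5] at e3 e4
  have e6 : y ⊔ l = f.win 1 k := by
    rw [e0, sup_comm]
  rw [e6] at e4
  have e7 : (f.e + ε) * (S.F k).n = (f.e + ε / 4) * (S.F k).n + 3 * (ε / 4 * (S.F k).n) := by ring
  have e8 : 0 < ε / 4 * (S.F k).n := by positivity
  rw [e7]
  linarith

/-- [HLF] OF HELPER87 -/
theorem st_HLF : Pool.Agent.Helper87.NSL.ST_HLF := by
  intro S N v g L Q V La σ b hb Y n c β A f hb1 hf ε hε
  have hle : ∀ k, f.La k ≤ V k := fun k => by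
    rw [hf.eLa]
    exact hf.le k
  have hent : Tendsto (fun k => h (fc (F := (S.chg S.tr b hb).F k) (f.La k)) (fc (V k)) /
      ((S.chg S.tr b hb).F k).n) UF (𝓝 0) := by
    have h1 := hf.ent.const_mul b⁻¹
    rw [mul_zero] at h1
    refine h1.congr fun k => ?_
    have h2 := h_chg_top b hb (F := S.F k) (La k) (V k)
    have h3 : h (fc (F := (S.chg S.tr b hb).F k) (f.La k)) (fc (V k)) = h (fc (La k)) (fc (V k)) := by
      rw [hf.eLa]
      exact h2
    rw [h3]
    show _ = h (fc (La k)) (fc (V k)) / (b * (S.F k).n)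
    have := (S.F k).pos
    field_simp
  have h4 := h_pt_le (S := S.chg S.tr b hb) f V hle hent (ε / b) (div_pos hε hb)
  filter_upwards [h4] with k hk
  have h5 : h (fc (F := (S.chg S.tr b hb).F k) (Setoid.ker ((Q.chg S.tr b hb).cellv 1 k))) (fc (V k)) =
      h (fc (Setoid.ker (Q.cellv b k))) (fc (V k)) := by
    have e1 : (Q.chg S.tr b hb).cellv 1 k = Q.cellv b k := by
      rw [cellv_chg, mul_one]
    rw [e1]
    exact h_chg_top b hb (F := S.F k) (Setoid.ker (Q.cellv b k)) (V k)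
  rw [h5, hf.e] at hk
  refine hk.trans (le_of_eq ?_)
  show ((v : ℝ) + ε / b) * (b * (S.F k).n) = _
  field_simp

end

end Pool.Agent.Helper81.HLF
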